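import Pool.Agent.H643R2.DX.Rev

/-! # The induction step for codes with finite deciphering delay -/

namespace Pool.Agent.H643R2.DX

open Pool.Agent.H643R2.SH Pool.Agent.H643R2.BX

variable {α : Type}

/-- Admissible star bodies: prefix codes with finite deciphering delay from right to left, and
suffix codes with finite deciphering delay from left to right. -/
def Adm (K : Language α) : Prop := IsPD K ∨ IsPD K.reverse

/-- In the expression the star is only applied to subexpressions that denote admissible codes. -/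
def AStars : GRE α → Prop
  | .zero => True
  | .one => True
  | .char _ => True
  | .union E F => AStars E ∧ AStars F
  | .inter E F => AStars E ∧ AStars F
  | .cat E F => AStars E ∧ AStars F
  | .compl E => AStars E
  | .star E => AStars E ∧ Adm E.lang

theorem stars_adm {E : GRE α} (hE : AStars E) : ∀ F ∈ stars E, AStars F ∧ Adm F.lang := by
  induction E with
  | zero => simp [stars]
  | one => simp [stars]
  | char a => simp [stars]
  | union E F h1 h2 =>
    intro G hG
    rcases List.mem_append.1 hG with hG | hG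
    · exact h1 hE.1 G hG
    · exact h2 hE.2 G hG
  | inter E F h1 h2 =>
    intro G hG
    rcases List.mem_append.1 hG with hG | hG
    · exact h1 hE.1 G hG
    · exact h2 hE.2 G hG
  | cat E F h1 h2 =>
    intro G hG
    rcases List.mem_append.1 hG with hG | hG
    · exact h1 hE.1 G hG
    · exact h2 hE.2 G hG
  | compl E h1 => exact h1 hE
  | star E h1 =>
    intro G hG
    simp only [stars, List.mem_singleton] at hG
    subst hG
    exact hE

/-- Expressions of height at most `h` whose stars are applied to admissible codes do not see the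
values. -/
def TPA (h : ℕ) {G : Type} (V : List α → G → Prop) : Prop :=
  ∀ E : GRE α, E.height ≤ h → AStars E →
    ∃ W : Set (List α), (∀ x ∈ W, ∀ y ∈ W, x ++ y ∈ W) ∧ (∀ x ∈ W, ∃ g, V x g) ∧
      (∀ g, ∃ x ∈ W, V x g) ∧ ∀ x ∈ W, ∀ y ∈ W, SE E.lang x y

theorem tp_step {h : ℕ} {G' G : Type} [Group G'] [Finite G'] [Group G] [Finite G]
    [IsSimpleGroup G]
    (V' : List α → G' → Prop) (V : List α → G → Prop) (f : G' → G) (a b : List α)
    (mul' : ∀ {u v g h}, V' u g → V' v h → V' (u ++ v) (g * h))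
    (mul : ∀ {u v g h}, V u g → V v h → V (u ++ v) (g * h))
    (one : V [] 1) (surj : ∀ g, ∃ x, V x g)
    (blk : ∀ {W k}, V' W k → V (a ++ W ++ b) (f k))
    {p q : G} (hpq : p * q ≠ q * p)
    (hf : ¬ ∀ y u : G', (f 1)⁻¹ * f u = (f y)⁻¹ * f (y * u))
    (hf' : ¬ ∀ y u : G', f u * (f 1)⁻¹ = f (u * y) * (f y)⁻¹)
    (ih : TPA h V') : TPA (h + 1) V := by
  intro E hE hb
  have hl : ∀ L ∈ (stars E).map (fun F => KStar.kstar F.lang), SFin L := by
    intro L hL
    obtain ⟨F, _, rfl⟩ := List.mem_map.1 hL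
    exact (RFin.star (GRE.rFin F)).sFin
  have domc : ∀ x ∈ {w | ∃ g, V w g}, ∀ y ∈ {w | ∃ g, V w g}, x ++ y ∈ {w | ∃ g, V w g} := by
    rintro x ⟨g, hg⟩ y ⟨g', hg'⟩
    exact ⟨_, mul hg hg'⟩
  obtain ⟨e, _, heV, hee, hmin⟩ := exists_word _ hl V mul {w | ∃ g, V w g}
    ⟨[], 1, one⟩ domc (fun x hx => hx)
  have hmemF : ∀ F ∈ stars E, KStar.kstar F.lang ∈ (stars E).map (fun F => KStar.kstar F.lang) :=
    fun F hF => List.mem_map.2 ⟨F, hF, rfl⟩
  -- the monoid of words with values
  let R : Submonoid (FreeMonoid α × G) :=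
    { carrier := {p | V (FreeMonoid.toList p.1) p.2}
      one_mem' := one
      mul_mem' := by
        intro p q hp hq
        exact mul hp hq }
  let v : R →* G := (MonoidHom.snd (FreeMonoid α) G).comp R.subtype
  let eR : R := ⟨(FreeMonoid.ofList e, 1), heV⟩
  let cL : Language α → Con R := fun L =>
    { r := fun x y => SE L (FreeMonoid.toList x.1.1) (FreeMonoid.toList y.1.1)
      iseqv :=
        { refl := fun _ => SE.refl _ _
          symm := fun h => h.symm
          trans := fun h h' => h.trans h' }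
      mul' := fun h h' => h.append h' }
  let c0 : Con R :=
    { r := fun x y => ∀ F ∈ stars E,
        SE (KStar.kstar F.lang) (FreeMonoid.toList x.1.1) (FreeMonoid.toList y.1.1)
      iseqv :=
        { refl := fun _ _ _ => SE.refl _ _
          symm := fun h F hF => (h F hF).symm
          trans := fun h h' F hF => (h F hF).trans (h' F hF) }
      mul' := fun h h' F hF => (h F hF).append (h' F hF) }
  have hgrp : GrpLike v eR c0 := by
    refine ⟨?_, rfl, ?_⟩
    · intro F hF
      exact hee _ (hmemF F hF)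
    · rintro ⟨⟨x, g⟩, hx⟩
      obtain ⟨k, hk, hgk, _, h1, h2⟩ := hmin (FreeMonoid.toList x) ⟨g, hx⟩ g hx
      have hy : V (pw (FreeMonoid.toList x ++ e) (k - 1)) (g ^ (k - 1)) := by
        have h3 : V (FreeMonoid.toList x ++ e) g := by
          have := mul hx heV
          simpa using this
        exact val_pw V mul one h3 (k - 1)
      refine ⟨⟨(FreeMonoid.ofList (pw (FreeMonoid.toList x ++ e) (k - 1)), g ^ (k - 1)), hy⟩,
        ?_, ?_, ?_⟩
      · intro F hF
        exact h1 _ (hmemF F hF)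
      · intro F hF
        exact h2 _ (hmemF F hF)
      · show g * g ^ (k - 1) = 1
        rw [← pow_succ', Nat.sub_add_cancel hk, hgk]
  have hvs : Function.Surjective v := by
    intro g
    obtain ⟨x, hx⟩ := surj g
    exact ⟨⟨(FreeMonoid.ofList x, g), hx⟩, rfl⟩
  -- each single bifix code leaves some value undetermined
  have hsing : ∀ F ∈ stars E, ∃ r, cL (KStar.kstar F.lang) (eR * r * eR) eR ∧ v r ≠ 1 := by
    intro F hF
    by_contra hcon
    obtain ⟨W, hWc, hWd, hWs, hWK⟩ := ih F (stars_height hE F hF) (stars_adm hb F hF).1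
    have hWne : W.Nonempty := by
      obtain ⟨x, hx, _⟩ := hWs 1
      exact ⟨x, hx⟩
    obtain ⟨w, hwW, hwV, hww, hwmin⟩ := exists_word [KStar.kstar F.lang] (by
      intro K hK
      rw [List.mem_singleton] at hK
      subst hK
      exact (RFin.star (GRE.rFin F)).sFin) V' mul' W hWne hWc hWd
    have inv0 : ∀ x g, V x g → ∃ y, V y g⁻¹ ∧
        SE (KStar.kstar F.lang) (e ++ x ++ e ++ y ++ e) e ∧
        SE (KStar.kstar F.lang) (e ++ y ++ e ++ x ++ e) e := by
      intro x g hx
      obtain ⟨k, hk, hgk, _, h1, h2⟩ := hmin x ⟨g, hx⟩ g hx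
      refine ⟨pw (x ++ e) (k - 1), ?_, h1 _ (hmemF F hF), h2 _ (hmemF F hF)⟩
      have h3 : V (x ++ e) g := by
        have := mul hx heV
        simpa using this
      have h4 := val_pw V mul one h3 (k - 1)
      have h5 : g ^ (k - 1) = g⁻¹ := by
        apply eq_inv_of_mul_eq_one_right
        rw [← pow_succ', Nat.sub_add_cancel hk, hgk]
      rw [h5] at h4
      exact h4
    have hwp0 : ∀ x ∈ W, ∃ k, 0 < k ∧ SE (KStar.kstar F.lang) (pw (w ++ x ++ w) k) w := by
      intro x hx
      obtain ⟨g, hg⟩ := hWd x hx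
      obtain ⟨k, hk, _, h1, _, _⟩ := hwmin x hx g hg
      exact ⟨k, hk, h1 _ (by simp)⟩
    have hyp0 : ∀ u g, V u g → SE (KStar.kstar F.lang) (e ++ u ++ e) e → g = 1 := by
      intro u g hu hse
      by_contra hg
      apply hcon
      exact ⟨⟨(FreeMonoid.ofList u, g), hu⟩, hse, hg⟩
    rcases (stars_adm hb F hF).2 with hK | hK
    · exact hf (pd_step hK V' V f a b mul' mul blk e heV inv0 W hWc hWs hWK
        w hwW hwV (hww _ (by simp)) hwp0 hyp0)
    · exact hf' (pd_step_rev hK V' V f a b mul' mul blk e heV inv0 W hWc hWs hWK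
        w hwW hwV (hww _ (by simp)) hwp0 hyp0)
  have hall := simple_inf hgrp hvs hpq (fun F : GRE α => cL (KStar.kstar F.lang)) (stars E)
    (fun F hF x y hxy => hxy F hF) hsing
  obtain ⟨N, hN⟩ := apr_of_stars E
  refine reduce (GRE.rFin E) V mul
    {w | (∃ g, V w g) ∧ ∀ F ∈ stars E, SE (KStar.kstar F.lang) w e} ?_ ?_ ?_ (N := N) ?_
  · rintro x ⟨⟨g, hg⟩, hx⟩ y ⟨⟨g', hg'⟩, hy⟩
    exact ⟨⟨_, mul hg hg'⟩, fun F hF => ((hx F hF).append (hy F hF)).trans (hee _ (hmemF F hF))⟩
  · rintro x ⟨hx, _⟩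
    exact hx
  · intro g
    obtain ⟨⟨⟨x, g'⟩, hx⟩, hr, hg⟩ := hall g
    have hg' : g' = g := hg
    subst hg'
    refine ⟨e ++ FreeMonoid.toList x ++ e, ⟨⟨g', ?_⟩, fun F hF => hr F hF⟩, ?_⟩
    · have := mul (mul heV hx) heV
      simpa using this
    · have := mul (mul heV hx) heV
      simpa using this
  · rintro x ⟨_, hx⟩
    apply hN
    intro F hF
    exact (((hx F hF).append (hx F hF)).trans (hee _ (hmemF F hF))).trans (hx F hF).symm

/-! ### the witness languages -/

section

variable {G : Type} [Group G]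

theorem tpa_v0 (m : ℕ) [NeZero m] : TPA 0 (V0 m) := by
  intro E hE _
  obtain ⟨N, hN⟩ := apr_of_stars E
  refine reduce (GRE.rFin E) (V0 m) (fun h h' => Gen.append h h') {w | ∃ g, V0 m w g} ?_ ?_ ?_
    (N := N) ?_
  · rintro x ⟨g, hg⟩ y ⟨g', hg'⟩
    exact ⟨_, Gen.append hg hg'⟩
  · intro x hx
    exact hx
  · intro g
    obtain ⟨x, hx⟩ := v0_surj m g
    exact ⟨x, ⟨g, hx⟩, hx⟩
  · intro x _
    apply hN
    intro F hF
    rw [stars_zero hE] at hF
    exact absurd hF (by simp)

theorem tpa_wn {m : ℕ} [NeZero m] [Finite G] [IsSimpleGroup G]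
    {f : Multiplicative (ZMod m) → G} (hf : Function.Surjective f) {p q : G}
    (hpq : p * q ≠ q * p) (n : ℕ) : TPA (n + 1) (Wn f n) := by
  induction n with
  | zero =>
    have comm : (∀ a b : G, a * ((f 1)⁻¹ * b) = b * ((f 1)⁻¹ * a)) → False := by
      intro h2
      apply hpq
      have h3 : ∀ a : G, a * (f 1)⁻¹ = (f 1)⁻¹ * a := by
        intro a
        have := h2 a 1
        simpa using this
      have h4 := h2 p q
      rw [← mul_assoc, ← mul_assoc, h3 p, h3 q, mul_assoc, mul_assoc] at h4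
      exact mul_left_cancel h4
    refine tp_step (V0 m) (Wn f 0) f [0] [1] (fun h h' => Gen.append h h')
      (fun h h' => Gen.append h h') Gen.nil (wn_surj hf 0) ?_ hpq ?_ ?_ (tpa_v0 m)
    · intro W k h
      exact Gen.base ⟨W, k, h, rfl, rfl⟩
    · intro h
      apply comm
      have h1 : ∀ y u, f (y * u) = f y * ((f 1)⁻¹ * f u) := by
        intro y u
        rw [h y u, mul_inv_cancel_left]
      intro a b
      obtain ⟨y, rfl⟩ := hf a
      obtain ⟨u, rfl⟩ := hf b
      rw [← h1, ← h1, mul_comm]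
    · intro h
      apply comm
      have h1 : ∀ y u, f (u * y) = f u * ((f 1)⁻¹ * f y) := by
        intro y u
        rw [← mul_assoc, h y u, inv_mul_cancel_right]
      intro a b
      obtain ⟨y, rfl⟩ := hf a
      obtain ⟨u, rfl⟩ := hf b
      rw [← h1, ← h1, mul_comm]
  | succ n ih =>
    refine tp_step (Wn f n) (Wn f (n + 1)) (fun g => g⁻¹) [0] [1]
      ?_ (fun h h' => Gen.append h h') Gen.nil (wn_surj hf (n + 1)) ?_ hpq ?_ ?_ ih
    · intro u v g h h1 h2
      cases n with
      | zero => exact Gen.append h1 h2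
      | succ n => exact Gen.append h1 h2
    · intro W k h
      exact Gen.base ⟨W, k, h, rfl, rfl⟩
    · intro h
      apply hpq
      have h1 := h q p⁻¹
      simp only [inv_one, one_mul, inv_inv, mul_inv_rev] at h1
      rw [← mul_assoc] at h1
      exact (eq_mul_inv_iff_mul_eq.1 h1)
    · intro h
      apply hpq
      have h1 := h q p⁻¹
      simp only [inv_one, mul_one, inv_inv, mul_inv_rev] at h1
      -- p = q⁻¹ * p * q
      rw [mul_assoc] at h1
      have h2 := congrArg (fun z => q * z) h1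
      simp only [mul_inv_cancel_left] at h2
      exact h2.symm

theorem beyond {m : ℕ} [NeZero m] [Finite G] [IsSimpleGroup G]
    {f : Multiplicative (ZMod m) → G} (hf : Function.Surjective f) {p q : G}
    (hpq : p * q ≠ q * p) (n : ℕ) :
    ¬ ∃ E : GRE (Fin 2), AStars E ∧ E.height ≤ n + 1 ∧
        E.lang = ({x | Wn f n x 1} : Language (Fin 2)) := by
  rintro ⟨E, hE, hh, hL⟩
  obtain ⟨W, _, _, hWs, hWE⟩ := tpa_wn hf hpq n E hh hE
  obtain ⟨x, hx, hx1⟩ := hWs 1
  obtain ⟨g, hg⟩ := exists_ne (1 : G)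
  obtain ⟨y, hy, hyg⟩ := hWs g
  have h1 := hWE x hx y hy [] []
  simp only [List.nil_append, List.append_nil] at h1
  rw [hL] at h1
  have h2 : Wn f n y 1 := h1.1 hx1
  exact hg ((wn_good f n).fn _ _ _ hyg h2)

end

end Pool.Agent.H643R2.DX
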