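import Pool.Agent.H643R2.DX.Step

/-! # The step read from right to left -/

namespace Pool.Agent.H643R2.DX

open Pool.Agent.H643R2.SH Pool.Agent.H643R2.BX

variable {α : Type}

theorem SE.rev {L : Language α} {x y : List α} (h : SE L x y) :
    SE L.reverse x.reverse y.reverse := by
  intro s t
  rw [Language.mem_reverse, Language.mem_reverse]
  have := h t.reverse s.reverse
  simpa [List.append_assoc] using this

theorem SE.revk {K : Language α} {x y : List α} (h : SE (KStar.kstar K) x y) :
    SE (KStar.kstar K.reverse) x.reverse y.reverse := by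
  rw [← Language.reverse_kstar]
  exact SE.rev h

theorem SE.revk' {K : Language α} {x y : List α} (h : SE (KStar.kstar K.reverse) x y) :
    SE (KStar.kstar K) x.reverse y.reverse := by
  rw [← Language.reverse_kstar] at h
  have := SE.rev h
  rwa [Language.reverse_reverse] at this

theorem pw_comm (x : List α) (k : ℕ) : pw x k ++ x = x ++ pw x k := by
  have := pw_conj x [] k
  simpa using this.symm

theorem pw_rev (x : List α) (k : ℕ) : (pw x k).reverse = pw x.reverse k := by
  induction k with
  | zero => simp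
  | succ k ih => rw [pw_succ, List.reverse_append, ih, pw_comm, ← pw_succ]

theorem pd_step_rev {K : Language α} (hK : IsPD K.reverse)
    {G' G : Type} [Group G'] [Group G]
    (V' : List α → G' → Prop) (V : List α → G → Prop) (f : G' → G) (a b : List α)
    (mul' : ∀ {u v g h}, V' u g → V' v h → V' (u ++ v) (g * h))
    (mul : ∀ {u v g h}, V u g → V v h → V (u ++ v) (g * h))
    (blk : ∀ {W k}, V' W k → V (a ++ W ++ b) (f k))
    (e : List α) (he1 : V e 1)
    (inv : ∀ x g, V x g → ∃ y, V y g⁻¹ ∧ SE (KStar.kstar K) (e ++ x ++ e ++ y ++ e) e ∧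
      SE (KStar.kstar K) (e ++ y ++ e ++ x ++ e) e)
    (W : Set (List α)) (hWc : ∀ x ∈ W, ∀ y ∈ W, x ++ y ∈ W)
    (hWs : ∀ k, ∃ x ∈ W, V' x k)
    (hWK : ∀ x ∈ W, ∀ y ∈ W, SE K x y)
    (w : List α) (hw : w ∈ W) (hw1 : V' w 1) (hww : SE (KStar.kstar K) (w ++ w) w)
    (hwp : ∀ x ∈ W, ∃ k, 0 < k ∧ SE (KStar.kstar K) (pw (w ++ x ++ w) k) w)
    (hyp : ∀ u g, V u g → SE (KStar.kstar K) (e ++ u ++ e) e → g = 1) :
    ∀ y u : G', f u * (f 1)⁻¹ = f (u * y) * (f y)⁻¹ := by
  have key : ∀ y u : G'ᵐᵒᵖ,
      (MulOpposite.op (f (1 : G'ᵐᵒᵖ).unop))⁻¹ * MulOpposite.op (f u.unop) =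
      (MulOpposite.op (f y.unop))⁻¹ * MulOpposite.op (f (y * u).unop) := by
    refine pd_step hK (G' := G'ᵐᵒᵖ) (G := Gᵐᵒᵖ)
      (fun w (k : G'ᵐᵒᵖ) => V' w.reverse k.unop) (fun w (g : Gᵐᵒᵖ) => V w.reverse g.unop)
      (fun k : G'ᵐᵒᵖ => MulOpposite.op (f k.unop)) b.reverse a.reverse ?_ ?_ ?_ e.reverse ?_ ?_
      {x | x.reverse ∈ W} ?_ ?_ ?_ w.reverse ?_ ?_ ?_ ?_ ?_
    · intro u v g h h1 h2
      have := mul' h2 h1
      simpa using this
    · intro u v g h h1 h2
      have := mul h2 h1
      simpa using this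
    · intro W k h
      have := blk h
      simpa [List.append_assoc] using this
    · simpa using he1
    · intro x g hx
      obtain ⟨y, h1, h2, h3⟩ := inv x.reverse g.unop hx
      refine ⟨y.reverse, by simpa using h1, ?_, ?_⟩
      · have := SE.revk h3
        simpa [List.append_assoc] using this
      · have := SE.revk h2
        simpa [List.append_assoc] using this
    · intro x hx y hy
      have := hWc _ hy _ hx
      simpa using this
    · intro k
      obtain ⟨x, hx, hx'⟩ := hWs k.unop
      exact ⟨x.reverse, by simpa using hx, by simpa using hx'⟩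
    · intro x hx y hy
      have := SE.rev (hWK _ hx _ hy)
      simpa using this
    · simpa using hw
    · simpa using hw1
    · have := SE.revk hww
      simpa using this
    · intro x hx
      obtain ⟨k, hk, h⟩ := hwp _ hx
      refine ⟨k, hk, ?_⟩
      have := SE.revk h
      rw [pw_rev] at this
      simpa [List.append_assoc] using this
    · intro u g hu h
      have h1 := SE.revk' h
      have h2 := hyp u.reverse g.unop hu (by simpa [List.append_assoc] using h1)
      exact MulOpposite.unop_injective h2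
  intro y u
  have h1 := key (MulOpposite.op y) (MulOpposite.op u)
  have h2 := congrArg MulOpposite.unop h1
  simpa using h2

end Pool.Agent.H643R2.DX
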