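import Pool.Agent.H643R2.DX.Main

/-! # Closure properties and substitution of blocks -/

namespace Pool.Agent.H643R2.DX

open Pool.Agent.H643R2.SH Pool.Agent.H643R2.BX

/-! ### expressions whose stars are applied to prefix codes with finite delay -/

section

variable {α : Type}

/-- stars only on prefix codes with finite deciphering delay from right to left -/
def PStars : GRE α → Prop
  | .zero => True
  | .one => True
  | .char _ => True
  | .union E F => PStars E ∧ PStars F
  | .inter E F => PStars E ∧ PStars F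
  | .cat E F => PStars E ∧ PStars F
  | .compl E => PStars E
  | .star E => PStars E ∧ IsPD E.lang

theorem PStars.adm {E : GRE α} (h : PStars E) : AStars E := by
  induction E with
  | zero => trivial
  | one => trivial
  | char a => trivial
  | union E F h1 h2 => exact ⟨h1 h.1, h2 h.2⟩
  | inter E F h1 h2 => exact ⟨h1 h.1, h2 h.2⟩
  | cat E F h1 h2 => exact ⟨h1 h.1, h2 h.2⟩
  | compl E h1 => exact h1 h
  | star E h1 => exact ⟨h1 h.1, Or.inl h.2⟩

theorem bifix_pd {K : Language α} (hK : IsBifix K) : IsPD K := by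
  refine ⟨hK.1, hK.2.1, 0, ?_⟩
  intro u t v ht hv h
  rw [pow_zero, Language.mem_one] at ht
  subst ht
  rw [List.append_nil] at h ⊢
  exact right_unitary hK hv h

theorem bifix_pstars {E : GRE α} (h : BifixStars E) : PStars E := by
  induction E with
  | zero => trivial
  | one => trivial
  | char a => trivial
  | union E F h1 h2 => exact ⟨h1 h.1, h2 h.2⟩
  | inter E F h1 h2 => exact ⟨h1 h.1, h2 h.2⟩
  | cat E F h1 h2 => exact ⟨h1 h.1, h2 h.2⟩
  | compl E h1 => exact h1 h
  | star E h1 => exact ⟨h1 h.1, bifix_pd h.2⟩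

/-- denoted by an expression with stars only on prefix codes with finite delay -/
def ExD (L : Language α) : Prop := ∃ E : GRE α, PStars E ∧ E.lang = L

theorem exD_of_ex {L : Language α} (h : Ex L) : ExD L := by
  obtain ⟨E, h1, h2⟩ := h
  exact ⟨E, bifix_pstars h1, h2⟩

theorem ExD.sup {L K : Language α} (hL : ExD L) (hK : ExD K) : ExD (L ⊔ K) := by
  obtain ⟨E, h1, h2⟩ := hL
  obtain ⟨F, h3, h4⟩ := hK
  exact ⟨.union E F, ⟨h1, h3⟩, by simp [GRE.lang, h2, h4]⟩

theorem ExD.inf {L K : Language α} (hL : ExD L) (hK : ExD K) : ExD (L ⊓ K) := by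
  obtain ⟨E, h1, h2⟩ := hL
  obtain ⟨F, h3, h4⟩ := hK
  exact ⟨.inter E F, ⟨h1, h3⟩, by simp [GRE.lang, h2, h4]⟩

theorem ExD.mul {L K : Language α} (hL : ExD L) (hK : ExD K) : ExD (L * K) := by
  obtain ⟨E, h1, h2⟩ := hL
  obtain ⟨F, h3, h4⟩ := hK
  exact ⟨.cat E F, ⟨h1, h3⟩, by simp [GRE.lang, h2, h4]⟩

theorem ExD.compl {L : Language α} (hL : ExD L) : ExD Lᶜ := by
  obtain ⟨E, h1, h2⟩ := hL
  exact ⟨.compl E, h1, by simp [GRE.lang, h2]⟩

theorem ExD.star {L : Language α} (hL : ExD L) (hb : IsPD L) : ExD (KStar.kstar L) := by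
  obtain ⟨E, h1, h2⟩ := hL
  exact ⟨.star E, ⟨h1, by rw [h2]; exact hb⟩, by simp [GRE.lang, h2]⟩

theorem ExD.zero : ExD (0 : Language α) := exD_of_ex Ex.zero

theorem ExD.one : ExD (1 : Language α) := exD_of_ex Ex.one

theorem ExD.char (a : α) : ExD ({[a]} : Language α) := exD_of_ex (Ex.char a)

/-- all words -/
def All (α : Type) : Language α := Set.univ

theorem mem_All (w : List α) : w ∈ All α := Set.mem_univ w

theorem ExD.all : ExD (All α) := by
  have : All α = (0 : Language α)ᶜ := by
    ext x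
    exact ⟨fun _ h => Language.notMem_zero x h, fun _ => mem_All x⟩
  rw [this]
  exact ExD.zero.compl

theorem ExD.biUnion {ι : Type} (s : Finset ι) (L : ι → Language α)
    (h : ∀ i ∈ s, ExD (L i)) : ExD ({x | ∃ i ∈ s, x ∈ L i} : Language α) := by
  classical
  induction s using Finset.induction_on with
  | empty =>
    have : ({x | ∃ i ∈ (∅ : Finset ι), x ∈ L i} : Language α) = (0 : Language α) := by
      ext x
      constructor
      · rintro ⟨i, hi, _⟩
        exact absurd hi (Finset.notMem_empty i)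
      · intro h
        exact absurd h (Language.notMem_zero x)
    rw [this]
    exact ExD.zero
  | insert i s his ih =>
    have : ({x | ∃ j ∈ insert i s, x ∈ L j} : Language α) =
        L i ⊔ ({x | ∃ j ∈ s, x ∈ L j} : Language α) := by
      ext x
      constructor
      · rintro ⟨j, hj, hx⟩
        rcases Finset.mem_insert.1 hj with rfl | hj
        · exact Or.inl hx
        · exact Or.inr ⟨j, hj, hx⟩
      · rintro (hx | ⟨j, hj, hx⟩)
        · exact ⟨i, Finset.mem_insert_self _ _, hx⟩
        · exact ⟨j, Finset.mem_insert_of_mem hj, hx⟩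
    rw [this]
    exact (h i (Finset.mem_insert_self _ _)).sup
      (ih (fun j hj => h j (Finset.mem_insert_of_mem hj)))

/-- words over the letters satisfying `P` -/
def SW (P : α → Prop) : Language α := {w | ∀ a ∈ w, P a}

theorem ExD.sw [Finite α] (P : α → Prop) : ExD (SW P) := by
  classical
  have hfin : Fintype α := Fintype.ofFinite α
  have h1 := ExD.biUnion (Finset.univ.filter (fun a => ¬ P a))
    (fun a => All α * ({[a]} : Language α) * All α)
    (fun a _ => (ExD.all.mul (ExD.char a)).mul ExD.all)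
  have h2 := h1.compl
  convert h2 using 1
  ext w
  show (∀ a ∈ w, P a) ↔ ¬ (∃ a ∈ Finset.univ.filter (fun a => ¬ P a),
    w ∈ All α * ({[a]} : Language α) * All α)
  constructor
  · rintro h ⟨a, ha, hw⟩
    rw [Language.mem_mul] at hw
    obtain ⟨x, hx, y, _, rfl⟩ := hw
    rw [Language.mem_mul] at hx
    obtain ⟨x', _, z, hz, rfl⟩ := hx
    have hz' : z = [a] := hz
    subst hz'
    exact (Finset.mem_filter.1 ha).2 (h a (by simp))
  · intro h a ha
    by_contra hP
    apply h
    obtain ⟨s, t, rfl⟩ := List.append_of_mem ha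
    refine ⟨a, by simp [hP], ?_⟩
    rw [Language.mem_mul]
    refine ⟨s ++ [a], ?_, t, mem_All t, by simp⟩
    rw [Language.mem_mul]
    exact ⟨s, mem_All s, [a], rfl, rfl⟩

end

/-! ### labelling of the blocks ended by the letter `c` -/

section

variable {A M : Type} [Monoid M]

/-- value of a word -/
def pr (φ : A → M) (w : List A) : M := (w.map φ).prod

/-- words over the letters satisfying `P` with value `m` -/
def Val (φ : A → M) (P : A → Prop) (m : M) : Language A := {u | (∀ a ∈ u, P a) ∧ pr φ u = m}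

theorem pr_nil (φ : A → M) : pr φ [] = 1 := rfl

theorem pr_cons (φ : A → M) (a : A) (w : List A) : pr φ (a :: w) = φ a * pr φ w := by
  simp [pr]

theorem pr_append (φ : A → M) (u v : List A) : pr φ (u ++ v) = pr φ u * pr φ v := by
  simp [pr]

/-- `w` is a product of blocks ended by `c`, and `l` is the list of their labels -/
inductive Lab (φ : A → M) (P : A → Prop) (c : A) : List A → List M → Prop
  | nil : Lab φ P c [] []
  | cons {u w : List A} {l : List M} (hu : ∀ a ∈ u, P a) (h : Lab φ P c w l) :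
      Lab φ P c (u ++ c :: w) (pr φ u :: l)

variable {φ : A → M} {P : A → Prop} {c : A}

theorem Lab.append {w w' : List A} {l l' : List M} (h : Lab φ P c w l) (h' : Lab φ P c w' l') :
    Lab φ P c (w ++ w') (l ++ l') := by
  induction h with
  | nil => simpa using h'
  | cons hu _ ih =>
    have := Lab.cons hu ih
    simpa [List.append_assoc] using this

theorem Lab.inv_cons {w : List A} {m : M} {l : List M} (h : Lab φ P c w (m :: l)) :
    ∃ u w', w = u ++ c :: w' ∧ (∀ a ∈ u, P a) ∧ m = pr φ u ∧ Lab φ P c w' l := by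
  cases h with
  | cons hu h => exact ⟨_, _, rfl, hu, rfl, h⟩

theorem Lab.inv_nil {w : List A} (h : Lab φ P c w []) : w = [] := by
  cases h
  rfl

theorem Lab.nil_inv {l : List M} (h : Lab φ P c [] l) : l = [] := by
  cases l with
  | nil => rfl
  | cons m l =>
    obtain ⟨u, w', e, _⟩ := h.inv_cons
    simp at e

theorem Lab.split {l1 l2 : List M} {w : List A} (h : Lab φ P c w (l1 ++ l2)) :
    ∃ w1 w2, w = w1 ++ w2 ∧ Lab φ P c w1 l1 ∧ Lab φ P c w2 l2 := by
  induction l1 generalizing w with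
  | nil => exact ⟨[], w, rfl, .nil, h⟩
  | cons m l1 ih =>
    obtain ⟨u, w', rfl, hu, rfl, h'⟩ := Lab.inv_cons h
    obtain ⟨w1, w2, rfl, h1, h2⟩ := ih h'
    exact ⟨u ++ c :: w1, w2, by simp, .cons hu h1, h2⟩

theorem cfree (hc : ¬ P c) {u u' w w' : List A} (hu : ∀ a ∈ u, P a) (hu' : ∀ a ∈ u', P a)
    (h : u ++ c :: w = u' ++ c :: w') : u = u' ∧ w = w' := by
  induction u generalizing u' with
  | nil =>
    cases u' with
    | nil => simpa using h
    | cons x u' =>
      simp only [List.nil_append, List.cons_append, List.cons.injEq] at h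
      exact absurd (hu' x (by simp)) (h.1 ▸ hc)
  | cons y u ih =>
    cases u' with
    | nil =>
      simp only [List.nil_append, List.cons_append, List.cons.injEq] at h
      exact absurd (hu y (by simp)) (h.1 ▸ hc)
    | cons x u' =>
      simp only [List.cons_append, List.cons.injEq] at h
      obtain ⟨h1, h2⟩ := ih (fun a ha => hu a (by simp [ha])) (fun a ha => hu' a (by simp [ha]))
        h.2
      exact ⟨by rw [h.1, h1], h2⟩

theorem Lab.pre (hc : ¬ P c) {u v : List A} {l l' : List M} (h : Lab φ P c u l)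
    (h' : Lab φ P c (u ++ v) l') : ∃ l'', l' = l ++ l'' ∧ Lab φ P c v l'' := by
  induction h generalizing l' with
  | nil => exact ⟨l', rfl, h'⟩
  | @cons x w l hx h ih =>
    cases l' with
    | nil =>
      have := h'.inv_nil
      simp at this
    | cons m l' =>
      obtain ⟨y, w', e, hy, rfl, h2⟩ := h'.inv_cons
      have e' : x ++ c :: (w ++ v) = y ++ c :: w' := by
        rw [← e]; simp [List.append_assoc]
      obtain ⟨rfl, rfl⟩ := cfree hc hx hy e'
      obtain ⟨l'', rfl, h3⟩ := ih h2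
      exact ⟨l'', rfl, h3⟩

theorem Lab.fn (hc : ¬ P c) {w : List A} {l l' : List M} (h : Lab φ P c w l)
    (h' : Lab φ P c w l') : l = l' := by
  obtain ⟨l'', rfl, h2⟩ := Lab.pre (v := []) hc h (by simpa using h')
  rw [h2.nil_inv, List.append_nil]

theorem Lab.letters {w : List A} {l : List M} (h : Lab φ P c w l) : ∀ a ∈ w, P a ∨ a = c := by
  induction h with
  | nil => simp
  | cons hu _ ih =>
    intro a ha
    rcases List.mem_append.1 ha with ha | ha
    · exact Or.inl (hu a ha)
    · rcases List.mem_cons.1 ha with ha | ha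
      · exact Or.inr ha
      · exact ih a ha

theorem Lab.last {w : List A} {l : List M} (h : Lab φ P c w l) :
    w = [] ∨ ∃ w', w = w' ++ [c] := by
  induction h with
  | nil => exact Or.inl rfl
  | @cons u w l hu _ ih =>
    right
    rcases ih with rfl | ⟨w', rfl⟩
    · exact ⟨u, rfl⟩
    · exact ⟨u ++ c :: w', by simp⟩

theorem Lab.parse (φ : A → M) (P : A → Prop) (c : A) (w : List A) (hw : ∀ a ∈ w, P a ∨ a = c) :
    ∃ w1 l z, w = w1 ++ z ∧ Lab φ P c w1 l ∧ ∀ a ∈ z, P a := by
  induction w with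
  | nil => exact ⟨[], [], [], rfl, .nil, by simp⟩
  | cons x w ih =>
    obtain ⟨w1, l, z, rfl, h1, h2⟩ := ih (fun a ha => hw a (by simp [ha]))
    rcases hw x (by simp) with hx | rfl
    · cases l with
      | nil =>
        have := h1.inv_nil
        subst this
        refine ⟨[], [], x :: z, rfl, .nil, ?_⟩
        intro a ha
        rcases List.mem_cons.1 ha with rfl | ha
        · exact hx
        · exact h2 a ha
      | cons m l =>
        obtain ⟨u, w', rfl, hu, rfl, h3⟩ := h1.inv_cons
        refine ⟨(x :: u) ++ c :: w', pr φ (x :: u) :: l, z, by simp, .cons ?_ h3, h2⟩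
        intro a ha
        rcases List.mem_cons.1 ha with rfl | ha
        · exact hx
        · exact hu a ha
    · exact ⟨[] ++ x :: w1, pr φ [] :: l, z, by simp, .cons (by simp) h1, h2⟩

theorem Lab.dom (hc : ¬ P c) {w : List A} (hw : ∀ a ∈ w, P a ∨ a = c)
    (hl : w = [] ∨ ∃ w', w = w' ++ [c]) : ∃ l, Lab φ P c w l := by
  obtain ⟨w1, l, z, rfl, h1, h2⟩ := Lab.parse φ P c w hw
  have hz : z = [] := by
    rcases hl with h | ⟨w', h⟩
    · exact (List.append_eq_nil_iff.1 h).2
    · rcases List.eq_nil_or_concat z with hz | ⟨z', x, hz⟩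
      · exact hz
      · exfalso
        rw [hz, List.concat_eq_append, ← List.append_assoc] at h
        have := (List.append_inj' h rfl).2
        simp only [List.cons.injEq, and_true] at this
        apply hc
        rw [← this]
        exact h2 x (by simp [hz])
  subst hz
  exact ⟨l, by simpa using h1⟩

/-- words whose list of labels is in `L` -/
def Sub (φ : A → M) (P : A → Prop) (c : A) (L : Language M) : Language A :=
  {w | ∃ l ∈ L, Lab φ P c w l}

theorem Sub.one : Sub φ P c (1 : Language M) = (1 : Language A) := by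
  ext w
  constructor
  · rintro ⟨l, hl, h⟩
    rw [Language.mem_one] at hl
    subst hl
    exact (Language.mem_one w).2 h.inv_nil
  · intro h
    rw [Language.mem_one] at h
    subst h
    exact ⟨[], (Language.mem_one _).2 rfl, .nil⟩

theorem Sub.zero : Sub φ P c (0 : Language M) = (0 : Language A) := by
  ext w
  constructor
  · rintro ⟨l, hl, _⟩
    exact absurd hl (Language.notMem_zero l)
  · intro h
    exact absurd h (Language.notMem_zero w)

theorem Sub.char (m : M) : Sub φ P c ({[m]} : Language M) =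
    Val φ P m * ({[c]} : Language A) := by
  ext w
  rw [Language.mem_mul]
  constructor
  · rintro ⟨l, hl, h⟩
    have hl' : l = [m] := hl
    subst hl'
    obtain ⟨u, w', rfl, hu, rfl, h'⟩ := h.inv_cons
    have := h'.inv_nil
    subst this
    exact ⟨u, ⟨hu, rfl⟩, [c], rfl, rfl⟩
  · rintro ⟨u, ⟨hu, rfl⟩, v, hv, rfl⟩
    have hv' : v = [c] := hv
    subst hv'
    exact ⟨[pr φ u], rfl, .cons hu .nil⟩

theorem Sub.sup (L L' : Language M) :
    Sub φ P c (L ⊔ L') = Sub φ P c L ⊔ Sub φ P c L' := by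
  ext w
  constructor
  · rintro ⟨l, hl | hl, h⟩
    · exact Or.inl ⟨l, hl, h⟩
    · exact Or.inr ⟨l, hl, h⟩
  · rintro (⟨l, hl, h⟩ | ⟨l, hl, h⟩)
    · exact ⟨l, Or.inl hl, h⟩
    · exact ⟨l, Or.inr hl, h⟩

theorem Sub.inf (hc : ¬ P c) (L L' : Language M) :
    Sub φ P c (L ⊓ L') = Sub φ P c L ⊓ Sub φ P c L' := by
  ext w
  constructor
  · rintro ⟨l, ⟨h1, h2⟩, h⟩
    exact ⟨⟨l, h1, h⟩, ⟨l, h2, h⟩⟩
  · rintro ⟨⟨l, h1, h⟩, ⟨l', h1', h'⟩⟩
    have := Lab.fn hc h h'
    subst this
    exact ⟨l, ⟨h1, h1'⟩, h⟩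

theorem Sub.mul (L L' : Language M) :
    Sub φ P c (L * L') = Sub φ P c L * Sub φ P c L' := by
  ext w
  rw [Language.mem_mul]
  constructor
  · rintro ⟨l, hl, h⟩
    rw [Language.mem_mul] at hl
    obtain ⟨l1, h1, l2, h2, rfl⟩ := hl
    obtain ⟨w1, w2, rfl, a1, a2⟩ := h.split
    exact ⟨w1, ⟨l1, h1, a1⟩, w2, ⟨l2, h2, a2⟩, rfl⟩
  · rintro ⟨w1, ⟨l1, h1, a1⟩, w2, ⟨l2, h2, a2⟩, rfl⟩
    refine ⟨l1 ++ l2, ?_, a1.append a2⟩
    rw [Language.mem_mul]
    exact ⟨l1, h1, l2, h2, rfl⟩

theorem Sub.pow (L : Language M) (n : ℕ) : Sub φ P c (L ^ n) = (Sub φ P c L) ^ n := by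
  induction n with
  | zero => rw [pow_zero, pow_zero, Sub.one]
  | succ n ih => rw [pow_succ, pow_succ, Sub.mul, ih]

theorem Sub.star (L : Language M) :
    Sub φ P c (KStar.kstar L) = KStar.kstar (Sub φ P c L) := by
  ext w
  constructor
  · rintro ⟨l, hl, h⟩
    rw [Language.mem_kstar] at hl
    obtain ⟨ls, rfl, hls⟩ := hl
    induction ls generalizing w with
    | nil =>
      rw [h.inv_nil]
      exact Language.nil_mem_kstar _
    | cons m ls ih =>
      rw [List.flatten_cons] at h
      obtain ⟨w1, w2, rfl, a1, a2⟩ := h.split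
      have h1 : w1 ∈ Sub φ P c L := ⟨m, hls m (by simp), a1⟩
      exact star_append (star_base h1) (ih w2 (fun y hy => hls y (by simp [hy])) a2)
  · intro h
    rw [Language.mem_kstar] at h
    obtain ⟨ws, rfl, hws⟩ := h
    induction ws with
    | nil => exact ⟨[], Language.nil_mem_kstar _, .nil⟩
    | cons w ws ih =>
      obtain ⟨l1, h1, a1⟩ := hws w (by simp)
      obtain ⟨l2, h2, a2⟩ := ih (fun y hy => hws y (by simp [hy]))
      rw [List.flatten_cons]
      exact ⟨l1 ++ l2, star_append (star_base h1) h2, a1.append a2⟩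

/-- the words which have labels -/
def Dom (P : A → Prop) (c : A) : Language A :=
  SW (fun a => P a ∨ a = c) ⊓ (1 ⊔ All A * ({[c]} : Language A))

theorem mem_dom (hc : ¬ P c) (w : List A) : w ∈ Dom P c ↔ ∃ l, Lab φ P c w l := by
  constructor
  · rintro ⟨h1, h2⟩
    apply Lab.dom hc h1
    rcases h2 with h2 | h2
    · exact Or.inl ((Language.mem_one w).1 h2)
    · right
      have h3 : w ∈ All A * ({[c]} : Language A) := h2
      rw [Language.mem_mul] at h3
      obtain ⟨x, _, y, hy, rfl⟩ := h3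
      have hy' : y = [c] := hy
      subst hy'
      exact ⟨x, rfl⟩
  · rintro ⟨l, h⟩
    refine ⟨h.letters, ?_⟩
    rcases h.last with rfl | ⟨w', rfl⟩
    · exact Or.inl ((Language.mem_one _).2 rfl)
    · right
      show w' ++ [c] ∈ All A * ({[c]} : Language A)
      rw [Language.mem_mul]
      exact ⟨w', mem_All w', [c], rfl, rfl⟩

theorem ExD.dom [Finite A] (P : A → Prop) (c : A) : ExD (Dom P c) :=
  (ExD.sw _).inf (ExD.one.sup (ExD.all.mul (ExD.char c)))

theorem Sub.compl (hc : ¬ P c) (L : Language M) :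
    Sub φ P c Lᶜ = Dom P c ⊓ (Sub φ P c L)ᶜ := by
  ext w
  constructor
  · rintro ⟨l, hl, h⟩
    refine ⟨(mem_dom hc w).2 ⟨l, h⟩, ?_⟩
    rintro ⟨l', hl', h'⟩
    have := Lab.fn hc h h'
    subst this
    exact hl hl'
  · rintro ⟨h1, h2⟩
    obtain ⟨l, h⟩ := (mem_dom (φ := φ) hc w).1 h1
    exact ⟨l, fun hl => h2 ⟨l, hl, h⟩, h⟩

theorem Sub.pd (hc : ¬ P c) {L : Language M} (hL : IsPD L) : IsPD (Sub φ P c L) := by
  obtain ⟨h0, h1, d, h2⟩ := hL
  refine ⟨?_, ?_, d + 1, ?_⟩
  · rintro ⟨l, hl, h⟩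
    rw [h.nil_inv] at hl
    exact h0 hl
  · rintro u v ⟨l, hl, h⟩ ⟨l', hl', h'⟩
    obtain ⟨l'', rfl, h3⟩ := Lab.pre hc h h'
    have := h1 l l'' hl hl'
    subst this
    exact h3.inv_nil
  · intro u t v ht hv huv
    rw [← Sub.pow] at ht
    rw [← Sub.star] at hv huv ⊢
    obtain ⟨lt, hlt, at'⟩ := ht
    obtain ⟨lv, hlv, av⟩ := hv
    obtain ⟨l, hl, a⟩ := huv
    rw [pow_succ', Language.mem_mul] at hlt
    obtain ⟨l0, hl0, l1, hl1, rfl⟩ := hlt
    obtain ⟨t0, t1, rfl, a0, a1⟩ := at'.split
    have ht0 : t0 ≠ [] := by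
      intro h
      rw [h] at a0
      rw [a0.nil_inv] at hl0
      exact h0 hl0
    have hd : ∃ m, Lab φ P c (u ++ t0) m := by
      apply Lab.dom hc
      · intro x hx
        apply a.letters
        have : x ∈ u ++ t0 := hx
        simp only [List.mem_append] at this ⊢
        tauto
      · right
        rcases a0.last with h | ⟨w', h⟩
        · exact absurd h ht0
        · exact ⟨u ++ w', by rw [h, List.append_assoc]⟩
    obtain ⟨m, am⟩ := hd
    have b : Lab φ P c (u ++ (t0 ++ t1) ++ v) (m ++ l1 ++ lv) := by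
      have := (am.append a1).append av
      simpa [List.append_assoc] using this
    have e := Lab.fn hc a b
    rw [e] at hl
    have h3 := h2 m l1 lv hl1 hlv hl
    refine ⟨m ++ l1, h3, ?_⟩
    have := am.append a1
    simpa [List.append_assoc] using this

theorem ExD.sub [Finite A] (hc : ¬ P c)
    (hK : ∀ m : M, ExD (Val φ P m))
    {L : Language M} (hL : ExD L) : ExD (Sub φ P c L) := by
  obtain ⟨E, hE, rfl⟩ := hL
  induction E with
  | zero => simp only [GRE.lang]; rw [Sub.zero]; exact ExD.zero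
  | one => simp only [GRE.lang]; rw [Sub.one]; exact ExD.one
  | char m => simp only [GRE.lang]; rw [Sub.char]; exact (hK m).mul (ExD.char c)
  | union E F h1 h2 => simp only [GRE.lang]; rw [Sub.sup]; exact (h1 hE.1).sup (h2 hE.2)
  | inter E F h1 h2 => simp only [GRE.lang]; rw [Sub.inf hc]; exact (h1 hE.1).inf (h2 hE.2)
  | cat E F h1 h2 => simp only [GRE.lang]; rw [Sub.mul]; exact (h1 hE.1).mul (h2 hE.2)
  | compl E h1 => simp only [GRE.lang]; rw [Sub.compl hc]; exact (ExD.dom P c).inf (h1 hE).compl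
  | star E h1 => simp only [GRE.lang]; rw [Sub.star]; exact (h1 hE.1).star (Sub.pd hc hE.2)

end

end Pool.Agent.H643R2.DX
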