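import Pool.Agent.H643R2.DX.Sub

/-! # Every regular language has an expression with stars only on prefix codes with finite delay -/

namespace Pool.Agent.H643R2.DX

open Pool.Agent.H643R2.SH Pool.Agent.H643R2.BX

/-! ### the local divisor at `c` -/

/-- the local divisor of `M` at `c` -/
structure LD {M : Type} [Monoid M] (c : M) : Type where
  val : M
  lft : ∃ z, val = z * c
  rgt : ∃ v, val = c * v

section

variable {M : Type} [Monoid M] {c : M}

theorem LD.ext' {x y : LD c} (h : x.val = y.val) : x = y := by
  cases x
  cases y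
  simp only at h
  subst h
  rfl

/-- the product of the local divisor -/
noncomputable def LD.m (x y : LD c) : LD c where
  val := x.lft.choose * y.val
  lft := by
    obtain ⟨z, hz⟩ := y.lft
    exact ⟨x.lft.choose * z, by rw [mul_assoc, ← hz]⟩
  rgt := by
    obtain ⟨v, hv⟩ := y.rgt
    obtain ⟨v', hv'⟩ := x.rgt
    refine ⟨v' * v, ?_⟩
    rw [← mul_assoc, ← hv', hv, ← mul_assoc, ← x.lft.choose_spec]

theorem LD.m_val {x y : LD c} {z : M} (hz : x.val = z * c) : (LD.m x y).val = z * y.val := by
  show x.lft.choose * y.val = z * y.val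
  obtain ⟨v, hv⟩ := y.rgt
  rw [hv, ← mul_assoc, ← mul_assoc, ← x.lft.choose_spec, ← hz]

noncomputable instance : Monoid (LD c) where
  mul := LD.m
  one := ⟨c, ⟨1, (one_mul c).symm⟩, ⟨1, (mul_one c).symm⟩⟩
  mul_assoc x y w := by
    obtain ⟨z, hz⟩ := x.lft
    obtain ⟨z', hz'⟩ := y.lft
    apply LD.ext'
    show (LD.m (LD.m x y) w).val = (LD.m x (LD.m y w)).val
    have h1 : (LD.m x y).val = (z * z') * c := by
      rw [LD.m_val hz, hz', mul_assoc]
    rw [LD.m_val h1, LD.m_val hz, LD.m_val hz', mul_assoc]
  one_mul x := by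
    apply LD.ext'
    show (LD.m ⟨c, ⟨1, (one_mul c).symm⟩, ⟨1, (mul_one c).symm⟩⟩ x).val = x.val
    rw [LD.m_val (z := 1) (one_mul c).symm, one_mul]
  mul_one x := by
    obtain ⟨z, hz⟩ := x.lft
    apply LD.ext'
    show (LD.m x ⟨c, ⟨1, (one_mul c).symm⟩, ⟨1, (mul_one c).symm⟩⟩).val = x.val
    rw [LD.m_val hz, hz]

theorem LD.one_val : (1 : LD c).val = c := rfl

theorem LD.mul_val {x y : LD c} {z : M} (hz : x.val = z * c) : (x * y).val = z * y.val :=
  LD.m_val hz

theorem LD.finite [Finite M] : Finite (LD c) :=
  Finite.of_injective (fun x : LD c => x.val) (fun _ _ h => LD.ext' h)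

theorem LD.card_lt [Finite M] (hc : ¬ IsUnit c) : Nat.card (LD c) < Nat.card M := by
  have h1 : Function.Injective (fun x : LD c => (⟨x.val, by
      intro h
      apply hc
      obtain ⟨z, hz⟩ := x.lft
      obtain ⟨v, hv⟩ := x.rgt
      rw [h] at hz hv
      exact isUnit_iff_exists.2 ⟨v, hv.symm, by
        have : z = v := by
          calc z = z * (c * v) := by rw [← hv, mul_one]
            _ = (z * c) * v := (mul_assoc _ _ _).symm
            _ = v := by rw [← hz, one_mul]
        rw [← this]; exact hz.symm⟩⟩ : {x : M // x ≠ 1})) := by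
    intro x y h
    apply LD.ext'
    exact congrArg Subtype.val h
  have h2 := Nat.card_le_card_of_injective _ h1
  have h3 : Nat.card {x : M // x ≠ 1} < Nat.card M :=
    Finite.card_subtype_lt (x := (1 : M)) (by simp)
  omega

/-- the letters of the new alphabet in the local divisor -/
noncomputable def psi (c : M) (m : M) : LD c where
  val := c * m * c
  lft := ⟨c * m, rfl⟩
  rgt := ⟨m * c, mul_assoc _ _ _⟩

theorem lab_val {A : Type} {φ : A → M} {P : A → Prop} {a : A} {w : List A} {l : List M}
    (h : Lab φ P a w l) : (pr (psi (φ a)) l).val = φ a * pr φ w := by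
  induction h with
  | nil =>
    rw [pr_nil, pr_nil, mul_one]
    rfl
  | @cons u w l hu _ ih =>
    rw [pr_cons, LD.mul_val (z := φ a * pr φ u) rfl, ih, pr_append, pr_cons]
    simp only [mul_assoc]

end

/-! ### the group case -/

section

variable {A M : Type} [Monoid M]

/-- the letters with invertible values as blocks -/
def UB (φ : A → M) (P : A → Prop) (w : List A) (g : Mˣ) : Prop :=
  ∃ a, P a ∧ w = [a] ∧ (g : M) = φ a

theorem ub_gen {φ : A → M} {P : A → Prop} (hu : ∀ a, P a → IsUnit (φ a)) (w : List A) (g : Mˣ) :
    Gen (UB φ P) w g ↔ (∀ a ∈ w, P a) ∧ pr φ w = g := by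
  constructor
  · intro h
    induction h with
    | nil => exact ⟨by simp, rfl⟩
    | @cons w w' g g' h _ ih =>
      obtain ⟨a, ha, rfl, hg⟩ := h
      refine ⟨?_, ?_⟩
      · intro b hb
        rcases List.mem_append.1 hb with hb | hb
        · rw [List.mem_singleton] at hb
          subst hb
          exact ha
        · exact ih.1 b hb
      · rw [pr_append, ih.2, Units.val_mul, hg]
        simp [pr]
  · rintro ⟨h1, h2⟩
    induction w generalizing g with
    | nil =>
      have : g = 1 := by
        apply Units.ext
        rw [← h2]; rfl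
      subst this
      exact Gen.nil
    | cons a w ih =>
      obtain ⟨ga, hga⟩ := hu a (h1 a (by simp))
      have h3 : pr φ w = ((ga⁻¹ * g : Mˣ) : M) := by
        rw [Units.val_mul, ← h2, pr_cons, ← hga, ← mul_assoc, Units.inv_mul, one_mul]
      have h4 := ih (ga⁻¹ * g) (fun b hb => h1 b (by simp [hb])) h3
      have h5 : UB φ P [a] ga := ⟨a, h1 a (by simp), rfl, hga⟩
      have h6 := Gen.cons h5 h4
      rw [mul_inv_cancel_left] at h6
      exact h6

theorem ub_code {φ : A → M} {P : A → Prop} (hu : ∀ a, P a → IsUnit (φ a)) :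
    Code (UB φ P) := by
  refine ⟨?_, ?_, ?_, ?_⟩
  · rintro w g ⟨a, _, rfl, _⟩
    simp
  · rintro u v g g' ⟨a, _, rfl, _⟩ ⟨b, _, h, _⟩
    simp only [List.cons_append, List.nil_append, List.cons.injEq] at h
    exact h.2
  · rintro w g g' ⟨a, _, rfl, h⟩ ⟨b, _, h', h''⟩
    simp only [List.cons.injEq, and_true] at h'
    apply Units.ext
    rw [h, h'', h']
  · intro u v g g' h _
    have h1 := ((ub_gen hu _ _).1 h).1
    have h2 : ∀ w : List A, (∀ a ∈ w, P a) → ∃ g : Mˣ, pr φ w = g := by
      intro w hw
      induction w with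
      | nil => exact ⟨1, rfl⟩
      | cons a w ih =>
        obtain ⟨ga, hga⟩ := hu a (hw a (by simp))
        obtain ⟨gw, hgw⟩ := ih (fun b hb => hw b (by simp [hb]))
        exact ⟨ga * gw, by rw [pr_cons, hgw, Units.val_mul, hga]⟩
    have h3 : ∀ a ∈ u, P a := fun a ha => h1 a (by simp [ha])
    obtain ⟨gu, hgu⟩ := h2 u h3
    exact ⟨gu, (ub_gen hu _ _).2 ⟨h3, hgu⟩⟩

theorem group_case [Finite A] [Finite M] {φ : A → M} {P : A → Prop}
    (hu : ∀ a, P a → IsUnit (φ a)) (p : M) : ExD (Val φ P p) := by
  classical
  have hfin : Fintype A := Fintype.ofFinite A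
  by_cases hp : IsUnit p
  · obtain ⟨g, rfl⟩ := hp
    have h1 : ∀ g, Ex ({x | UB φ P x g} : Language A) := by
      intro g
      have h2 := Ex.biUnion (Finset.univ.filter (fun a => P a ∧ (g : M) = φ a))
        (fun a => ({[a]} : Language A)) (fun a _ => Ex.char a)
      convert h2 using 1
      ext x
      constructor
      · rintro ⟨a, ha, rfl, h⟩
        exact ⟨a, by simp [ha, h], rfl⟩
      · rintro ⟨a, ha, hx⟩
        have := (Finset.mem_filter.1 ha).2
        exact ⟨a, this.1, hx, this.2⟩
    have h2 := (ub_code hu).ex_gen h1 g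
    have h3 : Val φ P (g : M) = ({x | Gen (UB φ P) x g} : Language A) := by
      ext x
      exact (ub_gen hu x g).symm
    rw [h3]
    exact exD_of_ex h2
  · have h3 : Val φ P p = (0 : Language A) := by
      ext x
      constructor
      · rintro ⟨h1, h2⟩
        exfalso
        apply hp
        rw [← h2]
        clear h2
        induction x with
        | nil => exact isUnit_one
        | cons a x ih =>
          rw [pr_cons]
          exact (hu a (h1 a (by simp))).mul (ih (fun b hb => h1 b (by simp [hb])))
      · intro h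
        exact absurd h (Language.notMem_zero x)
    rw [h3]
    exact ExD.zero

end

/-! ### the induction -/

theorem ex_val (n : ℕ) : ∀ (M : Type) [Monoid M] [Finite M], Nat.card M = n →
    ∀ (A : Type) [Finite A] (φ : A → M) (k : ℕ) (P : A → Prop), Nat.card {a // P a} = k →
      ∀ p : M, ExD (Val φ P p) := by
  classical
  induction n using Nat.strong_induction_on with
  | _ n ihn =>
    intro M _ _ hM A _ φ k
    induction k using Nat.strong_induction_on with
    | _ k ihk =>
      intro P hP p
      by_cases hu : ∀ a, P a → IsUnit (φ a)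
      · exact group_case hu p
      push Not at hu
      obtain ⟨c, hPc, hc⟩ := hu
      -- words without `c`
      let P' : A → Prop := fun a => P a ∧ a ≠ c
      have hP'c : ¬ P' c := fun h => h.2 rfl
      have hlt : Nat.card {a // P' a} < k := by
        rw [← hP]
        have h1 : Function.Injective (fun x : {a // P' a} =>
            (⟨⟨x.1, x.2.1⟩, fun h => x.2.2 (congrArg Subtype.val h)⟩ :
              {y : {a // P a} // y ≠ ⟨c, hPc⟩})) := by
          intro x y h
          apply Subtype.ext
          exact congrArg (fun z => z.1.1) h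
        have h2 := Nat.card_le_card_of_injective _ h1
        have h3 : Nat.card {y : {a // P a} // y ≠ ⟨c, hPc⟩} < Nat.card {a // P a} :=
          Finite.card_subtype_lt (x := (⟨c, hPc⟩ : {a // P a})) (by simp)
        omega
      have hV : ∀ m, ExD (Val φ P' m) := fun m => ihk _ hlt P' rfl m
      -- the middle part
      have hfin : Finite (LD (φ c)) := LD.finite
      have hD : ∀ q : LD (φ c), ExD (Sub φ P' c (Val (psi (φ c)) (fun _ => True) q)) := by
        intro q
        apply ExD.sub hP'c hV
        exact ihn (Nat.card (LD (φ c))) (by rw [← hM]; exact LD.card_lt hc) (LD (φ c)) rfl M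
          (psi (φ c)) _ (fun _ => True) rfl q
      have hft : Fintype (M × LD (φ c) × M) := Fintype.ofFinite _
      have hU := ExD.biUnion
        (Finset.univ.filter (fun t : M × LD (φ c) × M => t.1 * t.2.1.val * t.2.2 = p))
        (fun t => Val φ P' t.1 * ({[c]} : Language A) *
          Sub φ P' c (Val (psi (φ c)) (fun _ => True) t.2.1) * Val φ P' t.2.2)
        (fun t _ => (((hV t.1).mul (ExD.char c)).mul (hD t.2.1)).mul (hV t.2.2))
      have hE := (hV p).sup hU
      convert hE using 1
      ext w
      constructor
      · rintro ⟨h1, h2⟩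
        obtain ⟨w1, l, z, rfl, hl, hz⟩ := Lab.parse φ P' c w (by
          intro a ha
          by_cases hac : a = c
          · exact Or.inr hac
          · exact Or.inl ⟨h1 a ha, hac⟩)
        cases l with
        | nil =>
          left
          have := hl.inv_nil
          subst this
          exact ⟨hz, h2⟩
        | cons m l =>
          right
          obtain ⟨u, w', rfl, hu, rfl, hl'⟩ := hl.inv_cons
          refine ⟨(pr φ u, pr (psi (φ c)) l, pr φ z), ?_, ?_⟩
          · simp only [Finset.mem_filter, Finset.mem_univ, true_and]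
            rw [lab_val hl', ← h2, pr_append, pr_append, pr_cons]
          · rw [Language.mem_mul]
            refine ⟨u ++ [c] ++ w', ?_, z, ⟨hz, rfl⟩, by simp⟩
            rw [Language.mem_mul]
            refine ⟨u ++ [c], ?_, w', ⟨l, ⟨by simp, rfl⟩, hl'⟩, rfl⟩
            rw [Language.mem_mul]
            exact ⟨u, ⟨hu, rfl⟩, [c], rfl, rfl⟩
      · rintro (⟨h1, h2⟩ | ⟨⟨x, q, y⟩, ht, hw⟩)
        · exact ⟨fun a ha => (h1 a ha).1, h2⟩
        · simp only [Finset.mem_filter, Finset.mem_univ, true_and] at ht
          rw [Language.mem_mul] at hw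
          obtain ⟨w1, hw1, z, ⟨hz, hzy⟩, rfl⟩ := hw
          rw [Language.mem_mul] at hw1
          obtain ⟨w2, hw2, w', ⟨l, ⟨_, hlq⟩, hl⟩, rfl⟩ := hw1
          rw [Language.mem_mul] at hw2
          obtain ⟨u, ⟨hu, hux⟩, v, hv, rfl⟩ := hw2
          have hv' : v = [c] := hv
          subst hv'
          simp only at hux hlq hzy
          refine ⟨?_, ?_⟩
          · intro a ha
            simp only [List.mem_append, List.mem_singleton] at ha
            rcases ha with ((ha | ha) | ha) | ha
            · exact (hu a ha).1
            · rw [ha]; exact hPc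
            · rcases hl.letters a ha with h | h
              · exact h.1
              · rw [h]; exact hPc
            · exact (hz a ha).1
          · rw [← ht, ← hlq, lab_val hl, ← hux, ← hzy, pr_append, pr_append, pr_append]
            simp [pr, mul_assoc]

/-- every regular language is denoted by an expression with stars only on prefix codes with finite
deciphering delay from right to left -/
theorem universal {A : Type} [Finite A] (L : Language A) (hL : L.IsRegular) : ExD L := by
  classical
  obtain ⟨σ, _, D, rfl⟩ := hL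
  let M := (Function.End σ)ᵐᵒᵖ
  have hfM : Finite (Function.End σ) := inferInstanceAs (Finite (σ → σ))
  have hfM' : Finite M := Finite.of_equiv (Function.End σ) MulOpposite.opEquiv
  let φ : A → M := fun a => MulOpposite.op (fun s => D.step s a)
  have key : ∀ (w : List A) (s : σ), (pr φ w).unop s = D.evalFrom s w := by
    intro w
    induction w with
    | nil => intro s; rfl
    | cons a w ih =>
      intro s
      rw [pr_cons, MulOpposite.unop_mul, DFA.evalFrom_cons, ← ih]
      rfl
  have hft : Fintype M := Fintype.ofFinite M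
  have h1 := ExD.biUnion (Finset.univ.filter (fun p : M => p.unop D.start ∈ D.accept))
    (fun p => Val φ (fun _ => True) p)
    (fun p _ => ex_val (Nat.card M) M rfl A φ _ (fun _ => True) rfl p)
  convert h1 using 1
  ext w
  constructor
  · intro hw
    refine ⟨pr φ w, ?_, ⟨by simp, rfl⟩⟩
    simp only [Finset.mem_filter, Finset.mem_univ, true_and]
    rw [key]
    exact hw
  · rintro ⟨p, hp, ⟨_, rfl⟩⟩
    simp only [Finset.mem_filter, Finset.mem_univ, true_and] at hp
    rw [key] at hp
    exact hp

end Pool.Agent.H643R2.DX
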